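import Pool.Agent.Helper82.SG.St

/-!
# Project SG, module DEG: few Steiner points
-/

set_option autoImplicit false

namespace Pool.Agent.Helper7.SG

open Finset Real MeasureTheory Pool.Agent.Helper77.Steiner Pool.Agent.Helper82.SG
open Pool.Agent.Helper18.GP (nlen NConn)
open scoped ENNReal
open Relation (EqvGen)

variable {E : Type}

open Classical in
/-- the number of occurrences of `v` -/
private noncomputable def dg (v : E) (m : List (E × E)) : ℕ :=
  (m.map fun p => (if p.1 = v then 1 else 0) + (if p.2 = v then 1 else 0)).sum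

open Classical in
private theorem dg_cons (v : E) (p : E × E) (m : List (E × E)) : dg v (p :: m) =
    ((if p.1 = v then 1 else 0) + (if p.2 = v then 1 else 0)) + dg v m := by
  classical
  unfold dg
  rw [List.map_cons, List.sum_cons]

private theorem dg_append (v : E) (m m' : List (E × E)) : dg v (m ++ m') = dg v m + dg v m' := by
  unfold dg
  rw [List.map_append, List.sum_append]

private theorem sum_dg (B : Finset E) (m : List (E × E)) (hm : ∀ p ∈ m, p.1 ∈ B ∧ p.2 ∈ B) :
    ∑ v ∈ B, dg v m = 2 * m.length := by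
  classical
  induction m with
  | nil => simp [dg]
  | cons p m ih =>
    have h1 : ∀ v, dg v (p :: m) = (if p.1 = v then 1 else 0) + (if p.2 = v then 1 else 0) + dg v m :=
      fun v => dg_cons v p m
    simp only [h1, Finset.sum_add_distrib]
    rw [ih fun q hq => hm q (List.mem_cons_of_mem _ hq), Finset.sum_ite_eq, Finset.sum_ite_eq,
      if_pos (hm p (by simp)).1, if_pos (hm p (by simp)).2, List.length_cons]
    ring

private theorem dg_pos {v : E} {m : List (E × E)} (h : dg v m = 0) : ∀ p ∈ m, p.1 ≠ v ∧ p.2 ≠ v := by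
  classical
  induction m with
  | nil => intro p hp; simp at hp
  | cons q m ih =>
    rw [dg_cons] at h
    intro p hp
    rcases List.mem_cons.mp hp with rfl | hp
    · constructor
      · intro h1
        rw [if_pos h1] at h
        omega
      · intro h1
        rw [if_pos h1] at h
        omega
    · exact ih (by omega) p hp

/-- replacement of `v` by `u` -/
private noncomputable def ph (v u : E) (x : E) : E := by
  classical exact if x = v then u else x

private theorem ph_v (v u : E) : ph v u v = u := by
  unfold ph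
  simp

private theorem ph_ne {v u x : E} (h : x ≠ v) : ph v u x = x := by
  unfold ph
  simp [h]

variable [MetricSpace E]

open Classical in
private theorem point (v u : E) (p : E × E) (hp : p.1 ≠ p.2) :
    dist (ph v u p.1) (ph v u p.2) ≤ dist p.1 p.2 +
      (((if p.1 = v then 1 else 0) + (if p.2 = v then 1 else 0) : ℕ) : ℝ) * dist v u := by
  classical
  by_cases h1 : p.1 = v
  · have h2 : p.2 ≠ v := fun h => hp (h1.trans h.symm)
    rw [h1, ph_v, ph_ne h2, if_pos rfl, if_neg h2]
    have := dist_triangle u v p.2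
    rw [dist_comm u v] at this
    push_cast
    linarith
  · by_cases h2 : p.2 = v
    · rw [h2, ph_v, ph_ne h1, if_pos rfl, if_neg h1]
      have := dist_triangle p.1 v u
      push_cast
      linarith
    · rw [ph_ne h1, ph_ne h2, if_neg h1, if_neg h2]
      simp

private theorem list_le (v u : E) (m : List (E × E)) (hm : ∀ p ∈ m, p.1 ≠ p.2) :
    nlen dist (m.map fun p => (ph v u p.1, ph v u p.2)) ≤ nlen dist m + (dg v m : ℝ) * dist v u := by
  classical
  induction m with
  | nil => simp [nlen, dg]
  | cons p m ih =>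
    have h1 := ih fun q hq => hm q (List.mem_cons_of_mem _ hq)
    have h2 := point v u p (hm p (by simp))
    have e1 : nlen dist ((p :: m).map fun p => (ph v u p.1, ph v u p.2)) =
        dist (ph v u p.1) (ph v u p.2) + nlen dist (m.map fun p => (ph v u p.1, ph v u p.2)) := by
      simp [nlen]
    have e2 : nlen dist (p :: m) = dist p.1 p.2 + nlen dist m := by simp [nlen]
    rw [e1, e2, dg_cons]
    push_cast at h2 ⊢
    nlinarith

private theorem nlen_append (m m' : List (E × E)) : nlen dist (m ++ m') = nlen dist m + nlen dist m' := by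
  simp [nlen]

private theorem list_le' (v u : E) (m : List (E × E)) (hm : ∀ p ∈ m, p.1 ≠ p.2) (p : E × E) (hp : p ∈ m)
    (hpv : p = (v, u) ∨ p = (u, v)) (hd : dg v m ≤ 2) :
    nlen dist (m.map fun p => (ph v u p.1, ph v u p.2)) ≤ nlen dist m := by
  classical
  obtain ⟨s, t, rfl⟩ := List.append_of_mem hp
  have huv : u ≠ v := by
    intro h
    rcases hpv with h1 | h1
    · exact hm p hp (by rw [h1]; exact h.symm)
    · exact hm p hp (by rw [h1]; exact h)
  have h1 := list_le v u s fun q hq => hm q (by simp [hq])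
  have h2 := list_le v u t fun q hq => hm q (by simp [hq])
  have e0 : dist (ph v u p.1) (ph v u p.2) = 0 := by
    rcases hpv with h | h
    · rw [h]
      change dist (ph v u v) (ph v u u) = 0
      rw [ph_v, ph_ne huv, dist_self]
    · rw [h]
      change dist (ph v u u) (ph v u v) = 0
      rw [ph_v, ph_ne huv, dist_self]
  have e1 : dist p.1 p.2 = dist v u := by
    rcases hpv with h | h
    · rw [h]
    · rw [h]
      exact dist_comm _ _
  have e2 : ((if p.1 = v then 1 else 0) + (if p.2 = v then 1 else 0) : ℕ) = 1 := by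
    rcases hpv with h | h
    · rw [h]
      simp [huv]
    · rw [h]
      simp [huv]
  rw [List.map_append, List.map_cons, nlen_append, nlen_append]
  have e3 : nlen dist ((ph v u p.1, ph v u p.2) :: List.map (fun p => (ph v u p.1, ph v u p.2)) t) =
      0 + nlen dist (t.map fun p => (ph v u p.1, ph v u p.2)) := by
    rw [← e0]
    simp [nlen]
  have e4 : nlen dist (p :: t) = dist v u + nlen dist t := by
    rw [← e1]
    simp [nlen]
  rw [e3, e4]
  rw [dg_append, dg_cons, e2] at hd
  have hd' : ((dg v s : ℝ) + dg v t) ≤ 1 := by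
    have : dg v s + dg v t ≤ 1 := by omega
    exact_mod_cast this
  have hD : 0 ≤ dist v u := dist_nonneg
  nlinarith

/-- MODULE DEG. -/
theorem hDEG (hMST : StMST) (hLNT : StLNT) : StDEG := by
  classical
  intro E _ A V l hA hN hAV
  have hex : ∃ n : ℕ, ∃ B : Finset E, A ⊆ B ∧ mstLen B ≤ l ∧ B.card = n :=
    ⟨V.card, V, hAV, hLNT.2 V l hN, rfl⟩
  obtain ⟨B, hAB, hBl, hBc⟩ := Nat.find_spec hex
  have hmin : ∀ B' : Finset E, A ⊆ B' → mstLen B' ≤ l → B.card ≤ B'.card := by
    intro B' h1 h2
    rw [hBc]
    exact Nat.find_min' hex ⟨B', h1, h2, rfl⟩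
  refine ⟨B, hAB, ?_, hBl⟩
  by_contra hcon
  push Not at hcon
  have hB : B.Nonempty := hA.mono hAB
  have hA1 : 1 ≤ A.card := hA.card_pos
  obtain ⟨m, hm, hmc, hml, hmn⟩ := hMST B hB
  -- degrees
  have hsum : ∑ v ∈ B, dg v m = 2 * m.length := sum_dg B m fun p hp => ⟨(hm p hp).1, (hm p hp).2.1⟩
  have hdeg1 : ∀ v ∈ B, 1 ≤ dg v m := by
    intro v hv
    by_contra h0
    have h0' : dg v m = 0 := by omega
    have h1 := dg_pos h0'
    obtain ⟨w, hw, hwv⟩ : ∃ w ∈ B, w ≠ v := by
      by_contra hno
      push Not at hno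
      have : B.card ≤ 1 := Finset.card_le_one.mpr fun a ha b hb => (hno a ha).trans (hno b hb).symm
      omega
    have h2 := hmc v (by exact_mod_cast hv) w (by exact_mod_cast hw)
    have h3 : ∀ x y : E, EqvGen (fun x y => (x, y) ∈ m) x y → (x = v ↔ y = v) := by
      intro x y hxy
      induction hxy with
      | rel x y h => exact ⟨fun hx => absurd hx (h1 _ h).1, fun hy => absurd hy (h1 _ h).2⟩
      | refl x => exact Iff.rfl
      | symm x y _ ih => exact ih.symm
      | trans x y z _ _ ih1 ih2 => exact ih1.trans ih2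
    exact hwv ((h3 v w h2).mp rfl)
  obtain ⟨v, hvB, hvA, hdv⟩ : ∃ v ∈ B, v ∉ A ∧ dg v m ≤ 2 := by
    by_contra hno
    push Not at hno
    have h1 : ∑ v ∈ B \ A, 3 + ∑ v ∈ A, 1 ≤ ∑ v ∈ B, dg v m := by
      rw [← Finset.sum_sdiff hAB]
      refine Nat.add_le_add (Finset.sum_le_sum fun v hv => ?_) (Finset.sum_le_sum fun v hv => ?_)
      · rw [Finset.mem_sdiff] at hv
        exact hno v hv.1 hv.2
      · exact hdeg1 v (hAB hv)
    rw [hsum, Finset.sum_const, Finset.sum_const, Finset.card_sdiff_of_subset hAB, smul_eq_mul, smul_eq_mul] at h1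
    have h2 := Finset.card_le_card hAB
    omega
  -- a pair which contains `v`
  obtain ⟨p, hp, u, hpu⟩ : ∃ p ∈ m, ∃ u, p = (v, u) ∨ p = (u, v) := by
    by_contra hno
    push Not at hno
    have h1 : ∀ q ∈ m, q.1 ≠ v ∧ q.2 ≠ v := by
      intro q hq
      constructor
      · intro h
        exact (hno q hq q.2).1 (by rw [← h])
      · intro h
        exact (hno q hq q.1).2 (by rw [← h])
    have h2 : dg v m = 0 := by
      unfold dg
      rw [List.sum_eq_zero]
      intro n hn
      obtain ⟨q, hq, rfl⟩ := List.mem_map.mp hn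
      simp [(h1 q hq).1, (h1 q hq).2]
    have := hdeg1 v hvB
    omega
  have huB : u ∈ B := by
    rcases hpu with h | h
    · have := (hm p hp).2.1
      rwa [h] at this
    · have := (hm p hp).1
      rwa [h] at this
  have huv : u ≠ v := by
    intro h
    rcases hpu with h1 | h1
    · exact (hm p hp).2.2 (by rw [h1]; exact h.symm)
    · exact (hm p hp).2.2 (by rw [h1]; exact h)
  set m' : List (E × E) := (m.map fun p => (ph v u p.1, ph v u p.2)).filter fun p => p.1 ≠ p.2 with hm'
  have hlen : nlen dist m' ≤ nlen dist m := by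
    refine le_trans ?_ (list_le' v u m (fun p hp => (hm p hp).2.2) p hp hpu hdv)
    rw [hm']
    have : ∀ L : List (E × E), nlen dist (L.filter fun p => p.1 ≠ p.2) ≤ nlen dist L := by
      intro L
      induction L with
      | nil => simp
      | cons q L ih =>
        have e : nlen dist (q :: L) = dist q.1 q.2 + nlen dist L := by simp [nlen]
        by_cases hq : q.1 = q.2
        · rw [List.filter_cons_of_neg (by simpa using hq), e, hq, dist_self, zero_add]
          exact ih
        · rw [List.filter_cons_of_pos (by simpa using hq), e]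
          have e' : nlen dist (q :: L.filter fun p => p.1 ≠ p.2) =
            dist q.1 q.2 + nlen dist (L.filter fun p => p.1 ≠ p.2) := by simp [nlen]
          rw [e']
          linarith
    exact this _
  have hphB : ∀ x ∈ B, ph v u x ∈ B.erase v := by
    intro x hx
    by_cases hxv : x = v
    · rw [hxv, ph_v]
      exact Finset.mem_erase.mpr ⟨huv, huB⟩
    · rw [ph_ne hxv]
      exact Finset.mem_erase.mpr ⟨hxv, hx⟩
  have hmem : ∀ q ∈ m', q.1 ∈ B.erase v ∧ q.2 ∈ B.erase v := by
    intro q hq
    rw [hm', List.mem_filter] at hq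
    obtain ⟨r, hr, rfl⟩ := List.mem_map.mp hq.1
    exact ⟨hphB _ (hm r hr).1, hphB _ (hm r hr).2.1⟩
  have hconn : NConn m' (B.erase v : Set E) := by
    have key : ∀ x y : E, EqvGen (fun x y => (x, y) ∈ m) x y →
        EqvGen (fun x y => (x, y) ∈ m') (ph v u x) (ph v u y) := by
      intro x y hxy
      induction hxy with
      | rel x y h =>
        by_cases he : ph v u x = ph v u y
        · rw [he]
          exact EqvGen.refl _
        · refine EqvGen.rel _ _ ?_
          rw [hm', List.mem_filter]
          exact ⟨List.mem_map.mpr ⟨(x, y), h, rfl⟩, by simpa using he⟩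
      | refl x => exact EqvGen.refl _
      | symm x y _ ih => exact ih.symm
      | trans x y z _ _ ih1 ih2 => exact ih1.trans _ _ _ ih2
    intro a ha b hb
    rw [Finset.mem_coe, Finset.mem_erase] at ha hb
    have h1 := key a b (hmc a (by exact_mod_cast ha.2) b (by exact_mod_cast hb.2))
    rwa [ph_ne ha.1, ph_ne hb.1] at h1
  have hle : mstLen (B.erase v) ≤ nlen dist m' :=
    Pool.Agent.Helper77.GP.mstLen_le_list (B.erase v) ⟨u, Finset.mem_erase.mpr ⟨huv, huB⟩⟩ m' hmem hconn
  have h1 := hmin (B.erase v) (fun a ha => Finset.mem_erase.mpr ⟨fun h => hvA (h ▸ ha), hAB ha⟩)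
    (hle.trans (hlen.trans (hmn.le.trans hBl)))
  rw [Finset.card_erase_of_mem hvB] at h1
  have := Finset.card_pos.mpr hB
  omega

end Pool.Agent.Helper7.SG
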